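import Pool.Agent.H57.MC1749

set_option autoImplicit false

namespace Pool.Agent.Results.MP_719c9c_nt.NoMirror

open Pool.Agent.H57.MC

/-- The lattice-invariant reflections, acting on `ℤ × ℤ`: axes `x = k / 2`, `y = k / 2`,
`y = x + k` and `y = -x + k` with `k` an integer. -/
def IsLatticeReflection (σ : ℤ × ℤ → ℤ × ℤ) : Prop :=
  ∃ k : ℤ, σ = (fun p => (k - p.1, p.2)) ∨ σ = (fun p => (p.1, k - p.2)) ∨
    σ = (fun p => (p.2 - k, p.1 + k)) ∨ σ = (fun p => (k - p.2, k - p.1))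

/-- Some lattice-invariant reflection maps `L` onto itself. -/
def HasMirror (L : Set (ℤ × ℤ)) : Prop :=
  ∃ σ : ℤ × ℤ → ℤ × ℤ, IsLatticeReflection σ ∧ σ '' L = L

theorem result : IsStrong 1748 ∧
    ∃ a b r : ℝ, IsMCCircle 1748 a b r ∧ ¬ HasMirror (onCircle a b r) := by
  refine ⟨⟨⟨_, _, _, MC1749.mc⟩, MC1749.nonMC⟩, _, _, _, MC1749.mc, ?_⟩
  rintro ⟨σ, ⟨k, hσ⟩, h⟩
  have key : ∀ p : ℤ × ℤ, nrm 26 9 5 p = 378250 → nrm 26 9 5 (σ p) = 378250 := by
    intro p hp
    have h1 := (MC1749.c.mem_onCircle MC1749.h2 p).2 hp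
    have h2 := Set.mem_image_of_mem σ h1
    rw [h] at h2
    exact (MC1749.c.mem_onCircle MC1749.h2 _).1 h2
  have e1 := key (24, 0) (by decide)
  have e2 := key (-23, 4) (by decide)
  rcases hσ with rfl | rfl | rfl | rfl <;> simp only [nrm] at e1 e2
  · have : 13 * k = 9 := by linarith
    omega
  · have : 13 * k = 5 := by linarith
    omega
  · have : 13 * k = -2 := by linarith
    omega
  · have : 13 * k = 7 := by linarith
    omega

end Pool.Agent.Results.MP_719c9c_nt.NoMirror
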